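import Pool.Agent.N436.DF.Stm3

/-!
# Project DF (helper436, page MP_4006b4_co), third batch: gluing two colourings
(this part by helper164)
-/

set_option autoImplicit false

namespace Pool.Agent.N164.DF

open Finset Pool.Agent.N436.DF

theorem glue3 : S3_glue := by
  intro V _ H S X f g p q sX sB hok hXS hf hg hsX hsB heq hne hlX hlB
  classical
  set F : V → Bool := fun v => if v ∈ X then f v else g v with hF
  set P' : V → V → ℤ := fun u v => if u ∈ X then (if v ∈ X then p u v else sX u v)
    else (if v ∈ X then sB u v else q u v) with hP'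
  have hFX : ∀ x ∈ X, F x = f x := fun x hx => by simp only [hF, if_pos hx]
  have hFB : ∀ z, z ∉ X → F z = g z := fun z hz => by simp only [hF, if_neg hz]
  have pXX : ∀ u v, u ∈ X → v ∈ X → P' u v = p u v := fun u v hu hv => by
    simp only [hP', if_pos hu, if_pos hv]
  have pXB : ∀ u v, u ∈ X → v ∉ X → P' u v = sX u v := fun u v hu hv => by
    simp only [hP', if_pos hu, if_neg hv]
  have pBX : ∀ u v, u ∉ X → v ∈ X → P' u v = sB u v := fun u v hu hv => by
    simp only [hP', if_neg hu, if_pos hv]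
  have pBB : ∀ u v, u ∉ X → v ∉ X → P' u v = q u v := fun u v hu hv => by
    simp only [hP', if_neg hu, if_neg hv]
  have loadX : ∀ x ∈ X, load H S F P' x ≤ load H X f p x + ∑ z ∈ S \ X, sX x z := by
    intro x hx
    unfold load
    rw [← Finset.sum_sdiff hXS, add_comm]
    refine add_le_add (le_of_eq ?_) ?_
    · refine Finset.sum_congr rfl fun v hv => ?_
      rw [hFX x hx, hFX v hv, pXX x v hx hv]
    · refine Finset.sum_le_sum fun z hz => ?_
      have hzX := (Finset.mem_sdiff.1 hz).2
      rw [hFX x hx, hFB z hzX, pXB x z hx hzX]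
      by_cases h : f x = g z
      · rw [if_pos h]
        exact (heq x hx z hz h).1
      · rw [if_neg h]
  have loadB : ∀ z ∈ S \ X, load H S F P' z ≤ load H (S \ X) g q z + ∑ x ∈ X, sB z x := by
    intro z hz
    have hzX := (Finset.mem_sdiff.1 hz).2
    unfold load
    rw [← Finset.sum_sdiff hXS]
    refine add_le_add (le_of_eq ?_) ?_
    · refine Finset.sum_congr rfl fun v hv => ?_
      have hvX := (Finset.mem_sdiff.1 hv).2
      rw [hFB z hzX, hFB v hvX, pBB z v hzX hvX]
    · refine Finset.sum_le_sum fun x hx => ?_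
      rw [hFX x hx, hFB z hzX, pBX z x hzX hx]
      by_cases h : g z = f x
      · rw [if_pos h, hok.rsymm]
        exact (heq x hx z hz h.symm).2
      · rw [if_neg h]
  refine ⟨F, P', ⟨?_, ?_, ?_⟩, hFX, fun z hz => hFB z (Finset.mem_sdiff.1 hz).2, loadX, loadB⟩
  · intro u v
    by_cases hu : u ∈ X <;> by_cases hv : v ∈ X
    · rw [pXX u v hu hv]; exact hf.nn u v
    · rw [pXB u v hu hv]; exact hsX u v
    · rw [pBX u v hu hv]; exact hsB u v
    · rw [pBB u v hu hv]; exact hg.nn u v
  · intro u hu' v hv' huv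
    by_cases hu : u ∈ X <;> by_cases hv : v ∈ X
    · rw [hFX u hu, hFX v hv] at huv
      rw [pXX u v hu hv, pXX v u hv hu]
      exact hf.pay u hu v hv huv
    · rw [hFX u hu, hFB v hv] at huv
      rw [pXB u v hu hv, pBX v u hv hu]
      exact hne u hu v (Finset.mem_sdiff.2 ⟨hv', hv⟩) huv
    · rw [hFB u hu, hFX v hv] at huv
      rw [pBX u v hu hv, pXB v u hv hu, hok.msymm]
      have := hne v hv u (Finset.mem_sdiff.2 ⟨hu', hu⟩) (Ne.symm huv)
      linarith
    · rw [hFB u hu, hFB v hv] at huv
      rw [pBB u v hu hv, pBB v u hv hu]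
      exact hg.pay u (Finset.mem_sdiff.2 ⟨hu', hu⟩) v (Finset.mem_sdiff.2 ⟨hv', hv⟩) huv
  · intro u hu'
    by_cases hu : u ∈ X
    · rw [hFX u hu]
      exact (loadX u hu).trans (hlX u hu)
    · have hz : u ∈ S \ X := Finset.mem_sdiff.2 ⟨hu', hu⟩
      rw [hFB u hu]
      exact (loadB u hz).trans (hlB u hz)

end Pool.Agent.N164.DF
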